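import Pool.Agent.Helper96.KS.Complete

/-!
# MP_17e8f0_pr: cutoff for non-backtracking walks on random graphs with K communities

For every `K ≥ 2` and every sequence in the regime of the problem with `α log N → ∞`, the walk
has cutoff at `log N / μ` with a window of order `w_N`. This is the full positive answer to Q1.

Proof (all elementary). (1) The pairing is explored from a half-edge; the half-edges with weight
at least `ω` are processed in the order of their depth. An exponential functional of the
explored tree (with the value function of the ideal Markov chain of communities and weights) is a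
supermartingale up to small errors; it controls lost mass and the law of the weights for all
starting points whose ball of radius `C loglog N` is a tree. (2) Two explorations are joined by
the remaining matching, with an exponential moment estimate. (3) With probability tending to one
no small set of edges has more edges than vertices, and then the walk reaches from every starting
point, with probability close to one, a half-edge whose ball is a tree. (4) For the ideal
chain, `- log weight - n μ` plus a corrector is a martingale; its second and fourth moments give
tightness in the window and, by the inequality of Paley and Zygmund, anticoncentration in both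
directions, jointly with the final community.

Parts of the proof by helpers 2, 16, 20, 31, 32, 36, 41, 46, 49, 53, 66, 74, 77, 78, 90, 96.
-/

set_option autoImplicit false

open Filter

namespace Pool.Agent.Results.MP_17e8f0_pr.CutoffCommunities

open KS KS.Inst

theorem result : ∀ (K Δ : ℕ) (I : ℕ → Inst K), Regime K Δ I →
    -- tightness: `(t_mix(ε) - log N / μ) / w_N` is bounded in probability
    (∀ ep : ℝ, 0 < ep → ep < 1 → ∀ de : ℝ, 0 < de → ∃ C : ℝ, ∀ᶠ i in atTop,
      (I i).prG (fun η => ¬ ∃ m : ℕ, (I i).IsTmix η ep m ∧
        |(m : ℝ) - Real.log (I i).N / (I i).mu| ≤ C * (I i).w) ≤ de) ∧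
    -- the window is not smaller
    (∃ ep ep' c : ℝ, 0 < ep ∧ ep < ep' ∧ ep' < 1 ∧ 0 < c ∧
      Tendsto (fun i => (I i).prG (fun η => ∃ m m' : ℕ, (I i).IsTmix η ep m ∧
        (I i).IsTmix η ep' m' ∧ c * (I i).w ≤ (m : ℝ) - m')) atTop (nhds 1)) := by
  intro K Δ I hI
  obtain ⟨h1, ep, ep', c, h2, h3, h4, h5, h6⟩ := KS.Complete.final K Δ I hI
  refine ⟨?_, ep, ep', c, h2, h3, h4, h5, ?_⟩
  · intro e he he' de hde
    obtain ⟨C, hC⟩ := h1 e he he' de hde
    refine ⟨C, hC.mono fun i hi => ?_⟩
    rw [prG_eq]
    exact hi
  · refine h6.congr fun i => ?_
    rw [prG_eq]

end Pool.Agent.Results.MP_17e8f0_pr.CutoffCommunities
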